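import Mathlib
import Pool.Agent.H27Z.TFA.Main

set_option autoImplicit false

open MeasureTheory Set Filter Topology
open scoped RealInnerProductSpace

namespace Pool.Agent.Results.MP_0ec64f_mp.AnisotropicPressure

/-- Physical space. -/
abbrev E3 := EuclideanSpace ℝ (Fin 3)

/-- Admissible densities: measurable, nonnegative, integrable, with integrable `5/3`-power. -/
def Adm (ρ : E3 → ℝ) : Prop :=
  Measurable ρ ∧ (∀ x, 0 ≤ ρ x) ∧ Integrable ρ ∧ Integrable (fun x => ρ x ^ (5/3 : ℝ))

/-- The Thomas-Fermi functional `ξ(ρ)` for nuclear charges `z` at positions `R`. -/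
noncomputable def xi {k : ℕ} (z : Fin k → ℝ) (R : Fin k → E3) (ρ : E3 → ℝ) : ℝ :=
  3/5 * (∫ x, ρ x ^ (5/3 : ℝ)) - (∫ x, (∑ j, z j / ‖x - R j‖) * ρ x)
    + 1/2 * (∫ x, ∫ y, ρ x * ρ y / ‖x - y‖)
    + ∑ i, ∑ j ∈ Finset.Ioi i, z i * z j / ‖R i - R j‖

/-- The values of `ξ` on admissible densities of mass `lam`. -/
def energies {k : ℕ} (z : Fin k → ℝ) (R : Fin k → E3) (lam : ℝ) : Set ℝ :=
  {E | ∃ ρ, Adm ρ ∧ ∫ x, ρ x = lam ∧ xi z R ρ = E}

/-- The Thomas-Fermi energy `e(lam)` of the configuration `R`. -/
noncomputable def e {k : ℕ} (z : Fin k → ℝ) (R : Fin k → E3) (lam : ℝ) : ℝ :=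
  sInf (energies z R lam)

/-- Deformation (i): the first coordinate is multiplied by `l`. -/
noncomputable def dil (l : ℝ) (x : E3) : E3 := !₂[l * x 0, x 1, x 2]

/-- Deformation (ii): separation from the plane `⟪n, x⟫ = c` with unit normal `n`. Points on the
positive side move by `l n`, the other points by `-l n`. -/
noncomputable def sep (n : E3) (c l : ℝ) (x : E3) : E3 :=
  x + (if c < ⟪n, x⟫ then l else -l) • n

lemma nonneg_of_anti {f : ℝ → ℝ} {s : Set ℝ} (hf : AntitoneOn f s) {l d : ℝ}
    (hs : ∀ᶠ x in 𝓝[>] l, x ∈ s) (hd : HasDerivWithinAt f d s l) : 0 ≤ -d := by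
  have hacc : AccPt l (𝓟 s) := by
    rw [accPt_iff_frequently_nhdsNE]
    exact (hs.frequently).filter_mono (nhdsWithin_mono _ fun x hx => ne_of_gt hx)
  exact neg_nonneg.mpr (hd.nonpos_of_antitoneOn hacc hf)

lemma dil_inj {k : ℕ} (R : Fin k → E3) (hR : Function.Injective R) (l : ℝ) (hl : 0 < l) :
    Function.Injective fun i => dil l (R i) := by
  intro i j hij
  apply hR
  have h0 := congrArg (fun v : E3 => v 0) hij
  have h1 := congrArg (fun v : E3 => v 1) hij
  have h2 := congrArg (fun v : E3 => v 2) hij
  simp [dil] at h0 h1 h2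
  ext b
  fin_cases b
  · rcases h0 with h0 | h0
    · exact h0
    · exact absurd h0 hl.ne'
  · exact h1
  · exact h2

lemma inner_sep (n : E3) (hn : ‖n‖ = 1) (c l : ℝ) (x : E3) :
    ⟪n, sep n c l x⟫ = ⟪n, x⟫ + (if c < ⟪n, x⟫ then l else -l) := by
  unfold sep
  rw [inner_add_right, real_inner_smul_right, real_inner_self_eq_norm_sq, hn]
  ring

lemma sep_inj {k : ℕ} (R : Fin k → E3) (hR : Function.Injective R) (n : E3) (hn : ‖n‖ = 1)
    (c l : ℝ) (hl : 0 ≤ l) : Function.Injective fun i => sep n c l (R i) := by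
  intro i j hij
  apply hR
  have h1 : ⟪n, sep n c l (R i)⟫ = ⟪n, sep n c l (R j)⟫ := congrArg (fun v => ⟪n, v⟫) hij
  rw [inner_sep n hn, inner_sep n hn] at h1
  have h2 : sep n c l (R i) = sep n c l (R j) := hij
  unfold sep at h2
  by_cases hi : c < ⟪n, R i⟫ <;> by_cases hj : c < ⟪n, R j⟫
  · rw [if_pos hi, if_pos hj] at h2; exact add_right_cancel h2
  · rw [if_pos hi, if_neg hj] at h1; exfalso; linarith [not_lt.1 hj]
  · rw [if_neg hi, if_pos hj] at h1; exfalso; linarith [not_lt.1 hi]
  · rw [if_neg hi, if_neg hj] at h2; exact add_right_cancel h2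

/-- **Thomas-Fermi pressure under anisotropic deformations.** For all `k`, all charges `z ≥ 0`,
all distinct positions `R` and every `lam ≥ 0`: the infimum defining `e` is over a nonempty set
bounded below; (Q1) the energy is nonincreasing in `l > 0` under the one-direction dilation and
`P = -∂e/∂l ≥ 0` wherever the derivative exists; (Q2) for every plane containing no nucleus the
energy is nonincreasing in `l ≥ 0` under the separation from the plane and `P = -∂e/∂l ≥ 0`
wherever the derivative exists (one-sided at `l = 0`); and more generally a map of space acting on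
each coordinate by a monotone `1`-Lipschitz function and keeping the nuclei distinct does not
lower the energy. -/
theorem result {k : ℕ} (z : Fin k → ℝ) (hz : ∀ i, 0 ≤ z i) (R : Fin k → E3)
    (hR : Function.Injective R) (lam : ℝ) (hlam : 0 ≤ lam) :
    (∀ Q : Fin k → E3, (energies z Q lam).Nonempty ∧ BddBelow (energies z Q lam)) ∧
    (AntitoneOn (fun l : ℝ => e z (fun i => dil l (R i)) lam) (Ioi 0) ∧
      ∀ l : ℝ, 0 < l → ∀ d : ℝ,
        HasDerivAt (fun l : ℝ => e z (fun i => dil l (R i)) lam) d l → 0 ≤ -d) ∧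
    (∀ (n : E3) (c : ℝ), ‖n‖ = 1 → (∀ i, ⟪n, R i⟫ ≠ c) →
      AntitoneOn (fun l : ℝ => e z (fun i => sep n c l (R i)) lam) (Ici 0) ∧
      ∀ l : ℝ, 0 ≤ l → ∀ d : ℝ,
        HasDerivWithinAt (fun l : ℝ => e z (fun i => sep n c l (R i)) lam) d (Ici 0) l →
          0 ≤ -d) ∧
    (∀ (T : Fin 3 → ℝ → ℝ) (R' : Fin k → E3), (∀ b, Monotone (T b) ∧ LipschitzWith 1 (T b)) →
      (∀ i b, R' i b = T b (R i b)) → Function.Injective R' → e z R lam ≤ e z R' lam) := by
  refine ⟨fun Q => ⟨?_, ?_⟩, ?_, ?_, ?_⟩
  · exact Pool.Agent.Helper557.TFP.en_nonempty z Q lam hlam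
  · exact Pool.Agent.Helper557.TFP.en_bdd z hz Q lam
  · have hanti : AntitoneOn (fun l : ℝ => e z (fun i => dil l (R i)) lam) (Ioi 0) := by
      intro a ha b hb hab
      have ha' : 0 < a := ha
      have hb' : 0 < b := hb
      have hq0 : 0 ≤ a / b := by positivity
      have hq1 : a / b ≤ 1 := (div_le_one hb').mpr hab
      refine Pool.Agent.H27Z.TFA.contraction3 z hz _ _ (dil_inj R hR b hb') (dil_inj R hR a ha')
        lam hlam (fun j s => if j = 0 then a / b * s else s) ?_ ?_
      · intro j s t hst
        by_cases hj : j = 0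
        · simp only [hj, if_true]
          constructor <;> nlinarith
        · simp only [hj, if_false]; exact ⟨hst, le_rfl⟩
      · intro i j
        fin_cases j
        · simp [dil]
          field_simp
        · simp [dil]
        · simp [dil]
    refine ⟨hanti, fun l hl d hd => nonneg_of_anti hanti ?_ hd.hasDerivWithinAt⟩
    filter_upwards [self_mem_nhdsWithin] with x hx
    exact lt_trans hl hx
  · intro n c hn hc
    have hanti : AntitoneOn (fun l : ℝ => e z (fun i => sep n c l (R i)) lam) (Ici 0) := by
      intro a ha b hb hab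
      have ha' : 0 ≤ a := ha
      have hb' : 0 ≤ b := hb
      refine Pool.Agent.H27Z.TFA.contraction_dir z hz _ _ (sep_inj R hR n hn c b hb')
        (sep_inj R hR n hn c a ha') lam hlam n hn
        (fun s => s - max (-(b - a)) (min (b - a) (s - c))) ?_ ?_
      · intro s t hst
        have h1 : max (-(b - a)) (min (b - a) (s - c)) ≤ max (-(b - a)) (min (b - a) (t - c)) :=
          max_le_max le_rfl (min_le_min le_rfl (by linarith))
        have h2 : max (-(b - a)) (min (b - a) (t - c))
            ≤ max (-(b - a)) (min (b - a) (s - c)) + (t - s) := by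
          apply max_le
          · linarith [le_max_left (-(b - a)) (min (b - a) (s - c))]
          · have h3 := le_max_right (-(b - a)) (min (b - a) (s - c))
            rcases le_total (b - a) (s - c) with h4 | h4
            · rw [min_eq_left h4] at h3 ⊢
              linarith [min_le_left (b - a) (t - c)]
            · rw [min_eq_right h4] at h3 ⊢
              linarith [min_le_right (b - a) (t - c)]
        constructor <;> linarith
      · intro i
        simp only [inner_sep n hn]
        unfold sep
        rw [add_assoc, ← add_smul]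
        congr 2
        by_cases hi : c < ⟪n, R i⟫
        · simp only [if_pos hi]
          rw [min_eq_left (by linarith), max_eq_right (by linarith)]
          ring
        · simp only [if_neg hi]
          have hi' := not_lt.1 hi
          rw [max_eq_left (min_le_of_right_le (by linarith))]
          ring
    refine ⟨hanti, fun l hl d hd => nonneg_of_anti hanti ?_ hd⟩
    filter_upwards [self_mem_nhdsWithin] with x hx
    exact le_trans hl (le_of_lt hx)
  · intro T R' hT hR' hinj
    refine Pool.Agent.H27Z.TFA.contraction3 z hz R R' hR hinj lam hlam T ?_ hR'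
    intro b s t hst
    refine ⟨(hT b).1 hst, ?_⟩
    have h := (hT b).2.dist_le_mul t s
    rw [Real.dist_eq, Real.dist_eq, NNReal.coe_one, one_mul, abs_of_nonneg (sub_nonneg.2 hst)] at h
    exact (le_abs_self _).trans h

end Pool.Agent.Results.MP_0ec64f_mp.AnisotropicPressure
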